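import Pool.Agent.Lib.GAP.Sy

/-!
# Finite simple graphs given by a vertex list and an edge list

This file contains the definition of the inputs of the algorithm for MP_37c7bf_co.
-/

namespace Pool.Agent.Lib.GAF

open GAP (Sy)

/-- A finite simple graph as its vertex list and its edge list. The vertices are distinct natural
numbers; an edge is a pair of two different vertices. The edges may be listed in any order, in any
orientation and repeatedly. -/
structure GraphInput where
  verts : List ℕ
  edges : List (ℕ × ℕ)
  nodup : verts.Nodup
  ends : ∀ e ∈ edges, e.1 ∈ verts ∧ e.2 ∈ verts ∧ e.1 ≠ e.2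

/-- The graph with the listed vertices and edges. -/
def GraphInput.graph (I : GraphInput) : SimpleGraph {v : ℕ // v ∈ I.verts} where
  Adj u v := ((u : ℕ), (v : ℕ)) ∈ I.edges ∨ ((v : ℕ), (u : ℕ)) ∈ I.edges
  symm := ⟨fun _ _ h => h.symm⟩
  loopless := ⟨fun _ h => h.elim (fun h => (I.ends _ h).2.2 rfl) fun h => (I.ends _ h).2.2 rfl⟩

/-- A natural number in binary (least significant bit first), followed by a comma. -/
def writeNat (m : ℕ) : List Sy :=
  (m.bits.map fun b => if b then Sy.one else Sy.zero) ++ [Sy.comma]

/-- The input word of a graph: the vertices in binary, each followed by a comma, then a semicolon,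
then for every edge its two ends in binary, each followed by a comma. -/
def GraphInput.encode (I : GraphInput) : List Sy :=
  I.verts.flatMap writeNat ++ [Sy.semi] ++ I.edges.flatMap fun e => writeNat e.1 ++ writeNat e.2

end Pool.Agent.Lib.GAF
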