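import Pool.Agent.Lib.MP_37c7bf_co_helper26.Defs

/-!
# Generic rigidity in three-space of graphs with at most three vertices
-/

namespace Pool.Agent.Lib.GAF

open MeasureTheory Pool.Agent.H26R Module

set_option linter.unusedSectionVars false

section Complete

variable {V : Type*} [Finite V]

/-- Two families of points with equal distances are related by an isometry. -/
theorem exists_isometry_of_dist {p q : V → E3} (h : ∀ i j, dist (q i) (q j) = dist (p i) (p j)) :
    ∃ g : E3 ≃ᵢ E3, q = g ∘ p := by
  classical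
  have := Fintype.ofFinite V
  cases isEmpty_or_nonempty V with
  | inl hV => exact ⟨IsometryEquiv.refl _, funext fun i => (hV.false i).elim⟩
  | inr hV =>
    obtain ⟨i0⟩ := hV
    let A : (V → ℝ) →ₗ[ℝ] E3 := Fintype.linearCombination ℝ (fun i => p i - p i0)
    let B : (V → ℝ) →ₗ[ℝ] E3 := Fintype.linearCombination ℝ (fun i => q i - q i0)
    have hA : ∀ c, A c = ∑ i, c i • (p i - p i0) := fun c => Fintype.linearCombination_apply ℝ _ c
    have hB : ∀ c, B c = ∑ i, c i • (q i - q i0) := fun c => Fintype.linearCombination_apply ℝ _ c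
    have hin : ∀ i j, inner ℝ (q i - q i0) (q j - q i0) = inner ℝ (p i - p i0) (p j - p i0) := by
      intro i j
      have e1 : ∀ x y : E3, inner ℝ x y = (‖x‖ ^ 2 + ‖y‖ ^ 2 - ‖x - y‖ ^ 2) / 2 := by
        intro x y
        have := norm_sub_sq_real x y
        linarith
      rw [e1, e1]
      have h1 := h i i0
      have h2 := h j i0
      have h3 := h i j
      rw [dist_eq_norm, dist_eq_norm] at h1 h2 h3
      have e2 : q i - q i0 - (q j - q i0) = q i - q j := by abel
      have e3 : p i - p i0 - (p j - p i0) = p i - p j := by abel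
      rw [e2, e3, h1, h2, h3]
    have hn : ∀ c, ‖B c‖ = ‖A c‖ := by
      intro c
      have e : ‖B c‖ ^ 2 = ‖A c‖ ^ 2 := by
        rw [← real_inner_self_eq_norm_sq, ← real_inner_self_eq_norm_sq, hA, hB]
        simp only [sum_inner, inner_sum, inner_smul_left, inner_smul_right, hin]
      have h1 := norm_nonneg (B c)
      have h2 := norm_nonneg (A c)
      nlinarith [sq_nonneg (‖B c‖ - ‖A c‖), sq_nonneg (‖B c‖ + ‖A c‖)]
    obtain ⟨s, hs⟩ := A.rangeRestrict.exists_rightInverse_of_surjective A.range_rangeRestrict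
    have hs' : ∀ x : LinearMap.range A, A (s x) = x := by
      intro x
      have := congrArg Subtype.val (LinearMap.congr_fun hs x)
      simpa using this
    let L : LinearMap.range A →ₗᵢ[ℝ] E3 :=
      { toLinearMap := B ∘ₗ s
        norm_map' := fun x => by
          change ‖B (s x)‖ = ‖x‖
          rw [hn, hs']
          rfl }
    have hL : ∀ c, L ⟨A c, ⟨c, rfl⟩⟩ = B c := by
      intro c
      change B (s ⟨A c, ⟨c, rfl⟩⟩) = B c
      have h1 := hn (s ⟨A c, ⟨c, rfl⟩⟩ - c)
      rw [map_sub, map_sub, hs'] at h1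
      simp only [sub_self, norm_zero] at h1
      exact sub_eq_zero.mp (norm_eq_zero.mp h1)
    let Le : E3 ≃ₗᵢ[ℝ] E3 := L.extend.toLinearIsometryEquiv rfl
    have hLe : ∀ i, Le (p i - p i0) = q i - q i0 := by
      intro i
      have e1 : A (Pi.single i 1) = p i - p i0 := by
        rw [hA]
        simp [Pi.single_apply]
      have e2 : B (Pi.single i 1) = q i - q i0 := by
        rw [hB]
        simp [Pi.single_apply]
      have h1 := hL (Pi.single i 1)
      rw [e2] at h1
      rw [← h1]
      change L.extend (p i - p i0) = _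
      rw [← L.extend_apply]
      congr 1
      exact e1.symm
    refine ⟨((IsometryEquiv.subRight (p i0)).trans Le.toIsometryEquiv).trans
      (IsometryEquiv.addRight (q i0)), funext fun i => ?_⟩
    change q i = Le (p i - p i0) + q i0
    rw [hLe]
    abel

theorem frameworkRigid_top (p : V → E3) : FrameworkRigid (⊤ : SimpleGraph V) p := by
  refine ⟨Set.univ, Filter.univ_mem, fun q _ hq => exists_isometry_of_dist fun i j => ?_⟩
  by_cases h : i = j
  · subst h; simp
  · exact hq i j h

theorem genericallyRigid_top [Fintype V] : GenericallyRigid (⊤ : SimpleGraph V) :=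
  Filter.Eventually.of_forall fun p => frameworkRigid_top p

end Complete

/-- moving a point on a sphere around the origin so that its distance to `s` changes -/
theorem exists_sphere_move {r s : E3} (hr : r ≠ 0) (hs : s ≠ 0) :
    ∃ f : ℝ → E3, Continuous f ∧ f 0 = r ∧ ∀ t ≠ 0, ‖f t‖ = ‖r‖ ∧ ‖f t - s‖ ≠ ‖r - s‖ := by
  have hr' : 0 < ‖r‖ := norm_pos_iff.mpr hr
  have hs' : 0 < ‖s‖ := norm_pos_iff.mpr hs
  -- the direction of the movement
  obtain ⟨w, hw1, hw2, hw3⟩ : ∃ w : E3, inner ℝ r w = 0 ∧ ‖w‖ = ‖r‖ ∧
      ((inner ℝ r s ≠ 0 ∧ inner ℝ w s = 0) ∨ (inner ℝ r s = 0 ∧ inner ℝ w s ≠ 0)) := by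
    by_cases h : (inner ℝ r s : ℝ) = 0
    · refine ⟨(‖r‖ / ‖s‖) • s, ?_, ?_, Or.inr ⟨h, ?_⟩⟩
      · rw [inner_smul_right, h, mul_zero]
      · rw [norm_smul, Real.norm_of_nonneg (by positivity)]
        field_simp
      · rw [real_inner_smul_left, real_inner_self_eq_norm_sq]
        positivity
    · have h1 : finrank ℝ (Submodule.span ℝ ({r, s} : Set E3)) ≤ 2 := by
        refine (finrank_span_le_card ({r, s} : Set E3)).trans ?_
        have : ({r, s} : Set E3).toFinset = ({r, s} : Finset E3) := by ext; simp
        rw [this]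
        exact Finset.card_le_two
      have h2 : (Submodule.span ℝ ({r, s} : Set E3))ᗮ ≠ ⊥ := by
        intro hb
        have h3 := Submodule.finrank_add_finrank_orthogonal (Submodule.span ℝ ({r, s} : Set E3))
        rw [hb, finrank_bot, finrank_euclideanSpace_fin] at h3
        omega
      obtain ⟨w0, hw0, hw0'⟩ := Submodule.exists_mem_ne_zero_of_ne_bot h2
      rw [Submodule.mem_orthogonal] at hw0
      have hwn : 0 < ‖w0‖ := norm_pos_iff.mpr hw0'
      refine ⟨(‖r‖ / ‖w0‖) • w0, ?_, ?_, Or.inl ⟨h, ?_⟩⟩
      · rw [inner_smul_right, hw0 r (Submodule.subset_span (by simp)), mul_zero]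
      · rw [norm_smul, Real.norm_of_nonneg (by positivity)]
        field_simp
      · rw [real_inner_smul_left, real_inner_comm, hw0 s (Submodule.subset_span (by simp)), mul_zero]
  have hpos : ∀ t : ℝ, 0 < Real.sqrt (1 + t ^ 2) := fun t => Real.sqrt_pos.mpr (by positivity)
  have hsq : ∀ t : ℝ, Real.sqrt (1 + t ^ 2) ^ 2 = 1 + t ^ 2 := fun t =>
    Real.sq_sqrt (by positivity)
  refine ⟨fun t => (Real.sqrt (1 + t ^ 2))⁻¹ • (r + t • w), ?_, ?_, ?_⟩
  · have h1 : Continuous fun t : ℝ => (Real.sqrt (1 + t ^ 2))⁻¹ :=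
      Continuous.inv₀ (Real.continuous_sqrt.comp (by fun_prop)) fun t => (hpos t).ne'
    have h2 : Continuous fun t : ℝ => r + t • w := by fun_prop
    exact h1.smul h2
  · simp
  · intro t ht
    have hnorm : ‖r + t • w‖ = Real.sqrt (1 + t ^ 2) * ‖r‖ := by
      have h1 : ‖r + t • w‖ ^ 2 = (Real.sqrt (1 + t ^ 2) * ‖r‖) ^ 2 := by
        rw [norm_add_sq_real, inner_smul_right, hw1, norm_smul, hw2, mul_pow, mul_pow, hsq,
          Real.norm_eq_abs, sq_abs]
        ring
      have h2 := norm_nonneg (r + t • w)
      have h3 : 0 ≤ Real.sqrt (1 + t ^ 2) * ‖r‖ := by positivity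
      exact (pow_left_inj₀ h2 h3 two_ne_zero).mp h1
    have hf : ‖(Real.sqrt (1 + t ^ 2))⁻¹ • (r + t • w)‖ = ‖r‖ := by
      rw [norm_smul, hnorm, norm_inv, Real.norm_of_nonneg (hpos t).le]
      have := (hpos t).ne'
      field_simp
    refine ⟨hf, fun hc => ?_⟩
    have h1 := norm_sub_sq_real ((Real.sqrt (1 + t ^ 2))⁻¹ • (r + t • w)) s
    have h2 := norm_sub_sq_real r s
    rw [hc, hf] at h1
    have h3 : (inner ℝ ((Real.sqrt (1 + t ^ 2))⁻¹ • (r + t • w)) s : ℝ) = inner ℝ r s := by
      linarith
    rw [real_inner_smul_left, inner_add_left, real_inner_smul_left] at h3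
    have h4 : (inner ℝ r s : ℝ) + t * inner ℝ w s = Real.sqrt (1 + t ^ 2) * inner ℝ r s := by
      have := (hpos t).ne'
      have h8 := congrArg (fun x => Real.sqrt (1 + t ^ 2) * x) h3
      simp only [← mul_assoc, mul_inv_cancel₀ this, one_mul] at h8
      exact h8
    rcases hw3 with ⟨h5, h6⟩ | ⟨h5, h6⟩
    · rw [h6, mul_zero, add_zero] at h4
      have h7 : Real.sqrt (1 + t ^ 2) = 1 := by
        have h8 : (Real.sqrt (1 + t ^ 2) - 1) * (inner ℝ r s : ℝ) = 0 := by linarith
        rcases mul_eq_zero.mp h8 with h9 | h9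
        · linarith
        · exact absurd h9 h5
      have h8 := hsq t
      rw [h7] at h8
      have : t ^ 2 = 0 := by linarith
      exact ht (by simpa using this)
    · rw [h5, mul_zero, zero_add] at h4
      rcases mul_eq_zero.mp h4 with h9 | h9
      · exact ht h9
      · exact h6 h9

section NotTop

variable {V : Type*} [Fintype V]

theorem exists_injective_rigid {G : SimpleGraph V} (h : GenericallyRigid G) :
    ∃ p : V → E3, Function.Injective p ∧ FrameworkRigid G p := by
  classical
  have hd : Dense {p : V → E3 | FrameworkRigid G p} := Measure.dense_of_ae h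
  have ho : IsOpen {p : V → E3 | ∀ i j, i ≠ j → p i ≠ p j} := by
    simp only [Set.ofPred_forall]
    refine isOpen_iInter_of_finite fun i => isOpen_iInter_of_finite fun j => ?_
    by_cases hij : i = j
    · simp [hij]
    · simp only [ne_eq, hij, not_false_eq_true, Set.iInter_true]
      exact isOpen_ne_fun (continuous_apply i) (continuous_apply j)
  have hne : {p : V → E3 | ∀ i j, i ≠ j → p i ≠ p j}.Nonempty := by
    obtain ⟨f⟩ : Nonempty (V ↪ E3) := by
      refine ⟨(Fintype.equivFin V).toEmbedding.trans (Fin.valEmbedding.trans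
        (Infinite.natEmbedding E3))⟩
    exact ⟨f, fun i j hij h => hij (f.injective h)⟩
  obtain ⟨p, hp1, hp2⟩ := hd.inter_open_nonempty _ ho hne
  exact ⟨p, fun i j hij => by
    by_contra hc
    exact hp1 i j hc hij, hp2⟩

theorem not_rigid_of_not_adj {G : SimpleGraph V} (hV : Fintype.card V ≤ 3) {u v : V} (huv : u ≠ v)
    (hn : ¬ G.Adj u v) {p : V → E3} (hp : Function.Injective p) : ¬ FrameworkRigid G p := by
  classical
  rintro ⟨U, hU, hrig⟩
  -- it is enough to move `u`
  suffices hmove : ∃ f : ℝ → E3, Continuous f ∧ f 0 = p u ∧ ∀ t ≠ 0,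
      (∀ w, w ≠ u → w ≠ v → dist (f t) (p w) = dist (p u) (p w)) ∧
      dist (f t) (p v) ≠ dist (p u) (p v) by
    obtain ⟨f, hf1, hf2, hf3⟩ := hmove
    have hc : Filter.Tendsto (fun t => Function.update p u (f t)) (nhds 0) (nhds p) := by
      have h1 : Continuous fun t => Function.update p u (f t) :=
        continuous_const.update u hf1
      have h2 := h1.tendsto 0
      rwa [hf2, Function.update_eq_self] at h2
    have h3 := (hc.eventually hU).filter_mono (nhdsWithin_le_nhds (s := {(0 : ℝ)}ᶜ))
    obtain ⟨t, ht1, ht2⟩ := (h3.and (self_mem_nhdsWithin)).exists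
    have ht2 : t ≠ 0 := ht2
    obtain ⟨h4, h5⟩ := hf3 t ht2
    obtain ⟨g, hg⟩ := hrig _ ht1 (by
      intro i j hij
      by_cases hi : i = u
      · subst hi
        have hj : j ≠ i := hij.ne'
        have hjv : j ≠ v := fun h => hn (h ▸ hij)
        rw [Function.update_self, Function.update_of_ne hj]
        exact h4 j hj hjv
      · by_cases hj : j = u
        · subst hj
          have hiv : i ≠ v := fun h => hn (h ▸ hij.symm)
          rw [Function.update_self, Function.update_of_ne hi, dist_comm, dist_comm (p i)]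
          exact h4 i hi hiv
        · rw [Function.update_of_ne hi, Function.update_of_ne hj])
    apply h5
    have e1 : Function.update p u (f t) u = g (p u) := congrFun hg u
    have e2 : Function.update p u (f t) v = g (p v) := congrFun hg v
    rw [Function.update_self] at e1
    rw [Function.update_of_ne huv.symm] at e2
    rw [e1]
    nth_rewrite 1 [e2]
    exact g.dist_eq _ _
  by_cases hw : ∃ w, w ≠ u ∧ w ≠ v
  · obtain ⟨w, hwu, hwv⟩ := hw
    have hall : ∀ x : V, x ≠ u → x ≠ v → x = w := by
      intro x hx1 hx2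
      by_contra hx3
      have h1 : ({u, v, w, x} : Finset V).card = 4 := by
        rw [Finset.card_insert_of_notMem, Finset.card_insert_of_notMem,
          Finset.card_insert_of_notMem, Finset.card_singleton]
        · simpa using fun h => hx3 h.symm
        · simp only [Finset.mem_insert, Finset.mem_singleton, not_or]
          exact ⟨hwv.symm, hx2.symm⟩
        · simp only [Finset.mem_insert, Finset.mem_singleton, not_or]
          exact ⟨huv, hwu.symm, hx1.symm⟩
      have h2 := Finset.card_le_univ ({u, v, w, x} : Finset V)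
      omega
    obtain ⟨f, hf1, hf2, hf3⟩ := exists_sphere_move
      (r := p u - p w) (s := p v - p w) (sub_ne_zero.mpr fun h => hwu (hp h).symm)
      (sub_ne_zero.mpr fun h => hwv (hp h).symm)
    refine ⟨fun t => f t + p w, by fun_prop, by simp [hf2], fun t ht => ?_⟩
    obtain ⟨h1, h2⟩ := hf3 t ht
    constructor
    · intro x hx1 hx2
      rw [hall x hx1 hx2, dist_eq_norm, dist_eq_norm, add_sub_cancel_right, h1]
    · intro hc
      apply h2
      rw [dist_eq_norm, dist_eq_norm] at hc
      have e1 : f t + p w - p v = f t - (p v - p w) := by abel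
      have e2 : p u - p v = p u - p w - (p v - p w) := by abel
      rwa [e1, e2] at hc
  · push Not at hw
    have hne : p u - p v ≠ 0 := sub_ne_zero.mpr fun h => huv (hp h)
    refine ⟨fun t => p u + (t ^ 2) • (p u - p v), by fun_prop, by simp, fun t ht => ⟨?_, ?_⟩⟩
    · intro w h1 h2
      exact absurd (hw w h1) h2
    · intro hc
      rw [dist_eq_norm, dist_eq_norm] at hc
      have e1 : p u + t ^ 2 • (p u - p v) - p v = (1 + t ^ 2) • (p u - p v) := by
        rw [add_smul, one_smul]; abel
      rw [e1, norm_smul, Real.norm_of_nonneg (by positivity)] at hc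
      have h1 : 0 < ‖p u - p v‖ := norm_pos_iff.mpr hne
      have h2 : t ^ 2 * ‖p u - p v‖ = 0 := by linarith
      have h3 : 0 < t ^ 2 := by positivity
      have h4 : 0 < t ^ 2 * ‖p u - p v‖ := mul_pos h3 h1
      linarith

/-- **Small graphs.** A graph with at most three vertices is generically rigid if and only if it is
complete. -/
theorem genericallyRigid_iff_eq_top (hV : Fintype.card V ≤ 3) (G : SimpleGraph V) :
    GenericallyRigid G ↔ G = ⊤ := by
  constructor
  · intro h
    obtain ⟨p, hp1, hp2⟩ := exists_injective_rigid h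
    ext u v
    rw [SimpleGraph.top_adj]
    constructor
    · exact fun h => h.ne
    · intro huv
      by_contra hn
      exact not_rigid_of_not_adj hV huv hn hp1 hp2
  · rintro rfl
    exact genericallyRigid_top

end NotTop

end Pool.Agent.Lib.GAF
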