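import Pool.Agent.Lib.GA.MRank
import Pool.Agent.Lib.GR.Final
import Pool.Agent.Lib.GAF.Small
import Pool.Agent.Lib.GAF.Defs

/-!
# Generic rigidity of a graph given by lists
-/

set_option linter.unusedSectionVars false

namespace Pool.Agent.Lib.GAF

open GAM GR
open Pool.Agent.H26R (GenericallyRigid)

section Transport

variable {V W : Type*} [Fintype V] [DecidableEq V] [Fintype W] [DecidableEq W] (σ : V ≃ W)

lemma sym2map_injective : Function.Injective (Sym2.map σ) := Sym2.map.injective σ.injective

lemma Kf_map (C : Finset V) : Kf (C.map σ.toEmbedding) = (Kf C).image (Sym2.map σ) := by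
  ext e
  induction e with
  | h a b =>
    rw [mk_mem_Kf, Finset.mem_image]
    constructor
    · rintro ⟨h1, h2, h3⟩
      rw [Finset.mem_map_equiv] at h2 h3
      refine ⟨s(σ.symm a, σ.symm b), mk_mem_Kf.mpr ⟨fun h => h1 (σ.symm.injective h), h2, h3⟩, ?_⟩
      simp
    · rintro ⟨e, he, h⟩
      induction e with
      | h x y =>
        rw [mk_mem_Kf] at he
        rw [Sym2.map_mk, Sym2.eq_iff] at h
        rcases h with ⟨h1, h2⟩ | ⟨h1, h2⟩
        · subst h1 h2
          refine ⟨fun h => he.1 (σ.injective h), ?_, ?_⟩
          · rw [Finset.mem_map_equiv]; simpa using he.2.1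
          · rw [Finset.mem_map_equiv]; simpa using he.2.2
        · subst h1 h2
          refine ⟨fun h => he.1 (σ.injective h).symm, ?_, ?_⟩
          · rw [Finset.mem_map_equiv]; simpa using he.2.2
          · rw [Finset.mem_map_equiv]; simpa using he.2.1

lemma edgesOf_map (L : List (Finset V)) :
    GR.edgesOf (L.map (Finset.map σ.toEmbedding)) = (GR.edgesOf L).image (Sym2.map σ) := by
  induction L with
  | nil => simp
  | cons C L ih =>
    rw [List.map_cons, GR.edgesOf_cons, GR.edgesOf_cons, ih, Kf_map, Finset.image_union]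

lemma properSeq_map (L : List (Finset V)) :
    ProperSeq (L.map (Finset.map σ.toEmbedding)) ↔ ProperSeq L := by
  induction L with
  | nil => simp
  | cons C L ih =>
    rw [List.map_cons, properSeq_cons, properSeq_cons, ih, Finset.card_map, Kf_map, edgesOf_map,
      Finset.image_subset_image_iff (sym2map_injective σ)]

lemma K5rank_le_image (E : Finset (Sym2 V)) :
    {r : ℕ | ∃ L : List (Finset V), ProperSeq L ∧ r + L.length = (E ∪ GR.edgesOf L).card} ⊆
    {r : ℕ | ∃ L : List (Finset W), ProperSeq L ∧
      r + L.length = (E.image (Sym2.map σ) ∪ GR.edgesOf L).card} := by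
  rintro r ⟨L, h1, h2⟩
  refine ⟨L.map (Finset.map σ.toEmbedding), (properSeq_map σ L).mpr h1, ?_⟩
  rw [List.length_map, h2, edgesOf_map, ← Finset.image_union,
    Finset.card_image_of_injective _ (sym2map_injective σ)]

/-- The rank given by `K₅`-sequences does not depend on the names of the vertices. -/
theorem K5rank_image (E : Finset (Sym2 V)) : K5rank (E.image (Sym2.map σ)) = K5rank E := by
  have h1 := K5rank_le_image σ E
  have h2 := K5rank_le_image σ.symm (E.image (Sym2.map σ))
  have h3 : (E.image (Sym2.map σ)).image (Sym2.map σ.symm) = E := by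
    rw [Finset.image_image]
    have : Sym2.map σ.symm ∘ Sym2.map σ = id := by
      funext e
      induction e with
      | h a b => simp
    rw [this, Finset.image_id]
  rw [h3] at h2
  exact congrArg sInf (Set.Subset.antisymm h2 h1)

end Transport

/-- Generic rigidity in three-space in terms of the rank given by `K₅`-sequences. -/
theorem rigid_iff_K5rank {V : Type*} [Fintype V] [DecidableEq V] (hcard : 4 ≤ Fintype.card V)
    (G : SimpleGraph V) [DecidableRel G.Adj] :
    GenericallyRigid G ↔ 3 * Fintype.card V ≤ K5rank G.edgeFinset + 6 := by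
  rw [genericallyRigid_iff_gdim hcard G]
  have h := K5rank_spec ℝ two_ne_zero G.edgeFinset (edgeFinset_subset_Kf G)
  rw [SimpleGraph.coe_edgeFinset] at h
  omega

/-- The edges given by a list of pairs of numbers. -/
noncomputable def listEdges (n : ℕ) (es : List (ℕ × ℕ)) : Finset (Sym2 (Fin n)) :=
  open Classical in
  Finset.univ.filter fun e => ∃ i j : Fin n, e = s(i, j) ∧ ((i : ℕ), (j : ℕ)) ∈ es

theorem mem_listEdges {n : ℕ} {es : List (ℕ × ℕ)} {a b : Fin n} : s(a, b) ∈ listEdges n es ↔
    ((a : ℕ), (b : ℕ)) ∈ es ∨ ((b : ℕ), (a : ℕ)) ∈ es := by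
  classical
  rw [listEdges, Finset.mem_filter]
  constructor
  · rintro ⟨-, i, j, h1, h2⟩
    rw [Sym2.eq_iff] at h1
    rcases h1 with ⟨rfl, rfl⟩ | ⟨rfl, rfl⟩
    · exact Or.inl h2
    · exact Or.inr h2
  · rintro (h | h)
    · exact ⟨Finset.mem_univ _, a, b, rfl, h⟩
    · exact ⟨Finset.mem_univ _, b, a, Sym2.eq_swap, h⟩

namespace GraphInput

variable (I : GraphInput)

/-- The positions of the vertices. -/
def pos : {v : ℕ // v ∈ I.verts} ≃ Fin I.verts.length := (I.nodup.getEquiv I.verts).symm

theorem pos_val (v : {v : ℕ // v ∈ I.verts}) : (I.pos v : ℕ) = I.verts.idxOf (v : ℕ) := rfl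

/-- The edges as pairs of positions. -/
def posEdges : List (ℕ × ℕ) := I.edges.map fun e => (I.verts.idxOf e.1, I.verts.idxOf e.2)

theorem card_verts : Fintype.card {v : ℕ // v ∈ I.verts} = I.verts.length := by
  rw [Fintype.card_congr I.pos, Fintype.card_fin]

theorem posEdges_ok : ∀ e ∈ I.posEdges,
    e.1 < I.verts.length ∧ e.2 < I.verts.length ∧ e.1 ≠ e.2 := by
  intro e he
  obtain ⟨e', he', rfl⟩ := List.mem_map.1 he
  obtain ⟨h1, h2, h3⟩ := I.ends e' he'
  refine ⟨List.idxOf_lt_length_of_mem h1, List.idxOf_lt_length_of_mem h2, fun h => h3 ?_⟩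
  exact (List.idxOf_inj h1).1 h

theorem mem_posEdges (u v : {v : ℕ // v ∈ I.verts}) :
    ((I.pos u : ℕ), (I.pos v : ℕ)) ∈ I.posEdges ↔ ((u : ℕ), (v : ℕ)) ∈ I.edges := by
  rw [pos_val, pos_val]
  constructor
  · intro h
    obtain ⟨e, he, h⟩ := List.mem_map.1 h
    rw [Prod.mk.injEq] at h
    obtain ⟨h1, h2, -⟩ := I.ends e he
    have e1 := (List.idxOf_inj h1).1 h.1
    have e2 := (List.idxOf_inj h2).1 h.2
    rw [← e1, ← e2]
    exact he
  · intro h
    exact List.mem_map.2 ⟨_, h, rfl⟩

open Classical in
theorem listEdges_eq : listEdges I.verts.length I.posEdges =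
    I.graph.edgeFinset.image (Sym2.map I.pos) := by
  ext e
  induction e with
  | h a b =>
    rw [mem_listEdges, Finset.mem_image]
    have ha : a = I.pos (I.pos.symm a) := by simp
    have hb : b = I.pos (I.pos.symm b) := by simp
    rw [ha, hb, mem_posEdges, mem_posEdges]
    constructor
    · intro h
      refine ⟨s(I.pos.symm a, I.pos.symm b), ?_, by simp⟩
      rw [SimpleGraph.mem_edgeFinset]
      exact h
    · rintro ⟨e, he, h⟩
      induction e with
      | h x y =>
        rw [SimpleGraph.mem_edgeFinset] at he
        have he : I.graph.Adj x y := he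
        rw [Sym2.map_mk, Sym2.eq_iff] at h
        rcases h with ⟨h1, h2⟩ | ⟨h1, h2⟩
        · have h1 := I.pos.injective h1
          have h2 := I.pos.injective h2
          rw [← h1, ← h2]
          exact he
        · have h1 := I.pos.injective h1
          have h2 := I.pos.injective h2
          rw [← h1, ← h2]
          exact Or.symm he

/-- Rigidity of a listed graph with at least four vertices. -/
theorem rigid_iff (h : 4 ≤ I.verts.length) : GenericallyRigid I.graph ↔
    3 * I.verts.length ≤ K5rank (listEdges I.verts.length I.posEdges) + 6 := by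
  classical
  rw [listEdges_eq, K5rank_image, rigid_iff_K5rank (by rw [card_verts]; exact h), card_verts]

/-- Rigidity of a listed graph with at most three vertices. -/
theorem rigid_iff_small (h : I.verts.length ≤ 3) : GenericallyRigid I.graph ↔
    ∀ i < I.verts.length, ∀ j < I.verts.length, i = j ∨ (i, j) ∈ I.posEdges ∨
      (j, i) ∈ I.posEdges := by
  rw [genericallyRigid_iff_eq_top (by rw [card_verts]; exact h)]
  constructor
  · intro ht i hi j hj
    by_cases hij : i = j
    · exact Or.inl hij
    · right
      have h1 : I.graph.Adj (I.pos.symm ⟨i, hi⟩) (I.pos.symm ⟨j, hj⟩) := by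
        rw [ht, SimpleGraph.top_adj]
        intro hc
        have := I.pos.symm.injective hc
        exact hij (by simpa using congrArg Fin.val this)
      rcases h1 with h1 | h1
      · left
        rw [← mem_posEdges] at h1
        simpa using h1
      · right
        rw [← mem_posEdges] at h1
        simpa using h1
  · intro ht
    ext u v
    rw [SimpleGraph.top_adj]
    constructor
    · exact fun h => h.ne
    · intro huv
      rcases ht (I.pos u) (I.pos u).2 (I.pos v) (I.pos v).2 with h1 | h1 | h1
      · exact absurd (I.pos.injective (Fin.ext h1)) huv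
      · exact Or.inl ((I.mem_posEdges u v).1 h1)
      · exact Or.inr ((I.mem_posEdges v u).1 h1)

end GraphInput

/-- The characterization for all graphs. -/
theorem rigid_iff_sequences {V : Type*} [Fintype V] [DecidableEq V] (hcard : 3 ≤ Fintype.card V)
    (G : SimpleGraph V) [DecidableRel G.Adj] :
    GenericallyRigid G ↔ ∀ L : List (Finset V), Pool.Agent.K5.ProperK5Sequence L →
      3 * Fintype.card V + L.length ≤ (G.edgeFinset ∪ Pool.Agent.K5.edgesOf L).card + 6 := by
  rcases Nat.lt_or_ge 3 (Fintype.card V) with h4 | h3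
  · exact GR.rigid_iff_of_allGood G ℚ (GR.allGood ℚ _ two_ne_zero) h4
  · have h3 : Fintype.card V = 3 := le_antisymm h3 hcard
    have hL : ∀ L : List (Finset V), Pool.Agent.K5.ProperK5Sequence L → L = [] := by
      intro L hL
      cases L with
      | nil => rfl
      | cons C L =>
        have h1 : C.card = 5 := hL.1
        have h2 := Finset.card_le_univ C
        omega
    rw [genericallyRigid_iff_eq_top h3.le]
    have htop : (⊤ : SimpleGraph V).edgeFinset.card = 3 := by
      rw [SimpleGraph.card_edgeFinset_top_eq_card_choose_two, h3]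
      rfl
    constructor
    · rintro rfl L hL'
      rw [hL L hL']
      have : Pool.Agent.K5.edgesOf ([] : List (Finset V)) = ∅ := rfl
      rw [this, Finset.union_empty, List.length_nil, h3]
      have e0 : ∀ i : Fintype (⊤ : SimpleGraph V).edgeSet,
          (@SimpleGraph.edgeFinset V ⊤ i).card = 3 := by
        intro i
        rw [← htop]
        exact congrArg (fun j => (@SimpleGraph.edgeFinset V ⊤ j).card) (Subsingleton.elim i _)
      have e := e0 inferInstance
      omega
    · intro h
      have h1 := h [] trivial
      have : Pool.Agent.K5.edgesOf ([] : List (Finset V)) = ∅ := rfl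
      rw [this, Finset.union_empty, List.length_nil, h3] at h1
      have h2 : G.edgeFinset = (⊤ : SimpleGraph V).edgeFinset := by
        refine Finset.eq_of_subset_of_card_le (SimpleGraph.edgeFinset_subset_edgeFinset.2 le_top) ?_
        omega
      exact SimpleGraph.edgeFinset_inj.1 h2

end Pool.Agent.Lib.GAF
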