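import Pool.Agent.Lib.GAF.Glue
import Pool.Agent.Lib.GAP.Input

/-!
# From a polynomial-time rank function to the Turing machine
-/

namespace Pool.Agent.Lib.GAF

open GAP Pool.Agent.Lib.PolyTree Turing
open GAM (K5rank)
open Pool.Agent.H26R (GenericallyRigid)

/-- The decision function on words. -/
def decideWord (rr : ℕ × List (ℕ × ℕ) → ℕ) (w : List Sy) : Bool :=
  if (parse w).1 ≤ 3 then
    (List.range (parse w).1).all fun i => (List.range (parse w).1).all fun j =>
      decide (i = j) || ((parse w).2.any fun e => decide (e = (i, j))) ||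
        ((parse w).2.any fun e => decide (e = (j, i)))
  else decide (3 * (parse w).1 ≤ rr (parse w) + 6)

theorem PF_decideWord {rr : ℕ × List (ℕ × ℕ) → ℕ} (hrr : PF rr) : PF (decideWord rr) := by
  unfold decideWord
  have h : PF fun w : List Sy => rr (parse w) := PF.comp hrr (by fun_prop)
  fun_prop

theorem encode_eq (I : GraphInput) : I.encode =
    encVE (I.verts.map Nat.bits) (I.edges.map fun e => (e.1.bits, e.2.bits)) := by
  have h1 : ∀ m : ℕ, writeNat m = m.bits.map bitSy ++ [Sy.comma] := fun m => rfl
  rw [GraphInput.encode, encVE, encNames, encNames, ends, List.flatMap_map]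
  simp only [h1, List.append_assoc, List.singleton_append]
  congr 2
  induction I.edges with
  | nil => rfl
  | cons e l ih =>
    rw [List.flatMap_cons, ih, List.map_cons, List.flatMap_cons]
    simp [List.flatMap_cons, List.append_assoc]

theorem foldr_bits (n : ℕ) : n.bits.foldr Nat.bit 0 = n := by
  induction n using Nat.binaryRec' with
  | zero => simp
  | bit b n h ih => rw [Nat.bits_append_bit n b h, List.foldr_cons, ih]

theorem bits_injective : Function.Injective Nat.bits := by
  intro a b h
  rw [← foldr_bits a, h, foldr_bits]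

theorem parse_encode (I : GraphInput) : parse I.encode = (I.verts.length, I.posEdges) := by
  rw [encode_eq, parse_enc, List.length_map, List.map_map]
  refine Prod.ext rfl (List.map_congr_left fun e _ => ?_)
  have h : ∀ (l : List ℕ) (m : ℕ), (l.map Nat.bits).idxOf m.bits = l.idxOf m := by
    intro l m
    induction l with
    | nil => rfl
    | cons x l ih =>
      rw [List.map_cons, List.idxOf_cons, List.idxOf_cons, ih]
      by_cases hx : x = m
      · subst hx; simp only [beq_self_eq_true, cond_true]
      · have : x.bits ≠ m.bits := fun h => hx (bits_injective h)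
        simp only [beq_eq_false_iff_ne.2 hx, beq_eq_false_iff_ne.2 this, cond_false]
  exact Prod.ext (h _ _) (h _ _)

theorem decideWord_encode {rr : ℕ × List (ℕ × ℕ) → ℕ}
    (hr : ∀ (n : ℕ) (es : List (ℕ × ℕ)), (∀ e ∈ es, e.1 < n ∧ e.2 < n ∧ e.1 ≠ e.2) → 4 ≤ n →
      rr (n, es) = K5rank (listEdges n es)) (I : GraphInput) :
    decideWord rr I.encode = true ↔ GenericallyRigid I.graph := by
  unfold decideWord
  rw [parse_encode]
  by_cases h : I.verts.length ≤ 3
  · rw [if_pos h, I.rigid_iff_small h]
    simp only [List.all_eq_true, List.mem_range, Bool.or_eq_true, decide_eq_true_eq,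
      List.any_eq_true, exists_eq_right, or_assoc]
  · rw [if_neg h, I.rigid_iff (by omega), hr _ _ I.posEdges_ok (by omega), decide_eq_true_eq]

open Classical in
/-- **The machine.** -/
theorem machine {rr : ℕ × List (ℕ × ℕ) → ℕ} (hrr : PF rr)
    (hr : ∀ (n : ℕ) (es : List (ℕ × ℕ)), (∀ e ∈ es, e.1 < n ∧ e.2 < n ∧ e.1 ≠ e.2) → 4 ≤ n →
      rr (n, es) = K5rank (listEdges n es)) :
    ∃ M : TM2ComputableInPolyTime GraphInput.encode id
        (fun I : GraphInput => [decide (GenericallyRigid I.graph)]),
      ∀ k, Finite (M.tm.Γ k) :=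
  VE_machine GraphInput.encode (fun I => GenericallyRigid I.graph) (decideWord rr)
    (PF_decideWord hrr) (decideWord_encode hr)

end Pool.Agent.Lib.GAF
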